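import Mathlib

set_option autoImplicit false

namespace Pool.Agent.H247Z.MST

open Finset

/-- `kap m = m ^ (m - 2)` for `m ≥ 1`, as a real number -/
noncomputable def kap (m : ℕ) : ℝ := (m : ℝ) ^ m / (m : ℝ) ^ 2

lemma kap_pos {m : ℕ} (hm : 1 ≤ m) : 0 < kap m := by
  have : (0 : ℝ) < m := by exact_mod_cast hm
  unfold kap
  positivity

lemma kap_one : kap 1 = 1 := by simp [kap]

lemma alt_zero {M : ℕ} (hM : 1 ≤ M) :
    ∑ j ∈ range (M + 1), (-1 : ℝ) ^ (M - j) * (M.choose j : ℝ) * ((j : ℝ) + 1) ^ (M - 1) = 0 := by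
  have h := fwdDiff_iter_pow_eq_zero_of_lt (R := ℝ) (j := M - 1) (n := M) (by omega)
  have h2 := congrFun h 1
  rw [fwdDiff_iter_eq_sum_shift] at h2
  simp only [Pi.zero_apply] at h2
  rw [← h2]
  refine sum_congr rfl fun j _ => ?_
  simp only [zsmul_eq_mul, nsmul_eq_mul, mul_one]
  push_cast
  ring

lemma abel_id (N : ℕ) (z : ℝ) :
    ∑ j ∈ range (N + 1), (N.choose j : ℝ) * (((j : ℝ) + 1) ^ j / ((j : ℝ) + 1)) *
      (z - ((j : ℝ) + 1)) ^ (N - j) = z ^ N := by
  have h1 : ∀ j ∈ range (N + 1), (N.choose j : ℝ) * (((j : ℝ) + 1) ^ j / ((j : ℝ) + 1)) *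
      (z - ((j : ℝ) + 1)) ^ (N - j) = ∑ i ∈ range (N + 1), (N.choose j : ℝ) *
        (((j : ℝ) + 1) ^ j / ((j : ℝ) + 1)) *
        (z ^ i * (-((j : ℝ) + 1)) ^ (N - j - i) * ((N - j).choose i : ℝ)) := by
    intro j hj
    rw [← mul_sum, sub_eq_add_neg z, add_pow z]
    refine congrArg _ ?_
    refine sum_subset (range_subset_range.mpr (show N - j + 1 ≤ N + 1 by omega)) ?_
    intro i _ hi
    rw [mem_range] at hi
    rw [Nat.choose_eq_zero_of_lt (by omega)]
    simp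
  rw [sum_congr rfl h1, sum_comm]
  have h2 : ∀ i ∈ range (N + 1), ∑ j ∈ range (N + 1), (N.choose j : ℝ) *
        (((j : ℝ) + 1) ^ j / ((j : ℝ) + 1)) *
        (z ^ i * (-((j : ℝ) + 1)) ^ (N - j - i) * ((N - j).choose i : ℝ)) =
      z ^ i * (N.choose i : ℝ) * ∑ j ∈ range (N - i + 1), (-1 : ℝ) ^ (N - i - j) *
        ((N - i).choose j : ℝ) * (((j : ℝ) + 1) ^ (N - i) / ((j : ℝ) + 1)) := by
    intro i hi
    rw [mem_range] at hi
    rw [mul_sum]
    symm
    refine sum_subset_zero_on_sdiff (range_subset_range.mpr (by omega)) ?_ ?_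
    · intro j hj
      rw [mem_sdiff, mem_range, mem_range] at hj
      rw [Nat.choose_eq_zero_of_lt (n := N - j) (by omega)]
      simp
    · intro j hj
      rw [mem_range] at hj
      have c1 := Nat.choose_mul (n := N) (k := i + j) (s := j) (by omega)
      have c2 := Nat.choose_mul (n := N) (k := i + j) (s := i) (by omega)
      rw [Nat.add_sub_cancel] at c1
      rw [Nat.add_sub_cancel_left] at c2
      have c3 : (i + j).choose j = (i + j).choose i := Nat.choose_symm_add.symm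
      have c4 : N.choose j * (N - j).choose i = N.choose i * (N - i).choose j := by
        rw [← c1, ← c2, c3]
      have c5 : (N.choose j : ℝ) * ((N - j).choose i : ℝ) =
          (N.choose i : ℝ) * ((N - i).choose j : ℝ) := by exact_mod_cast c4
      have e1 : N - j - i = N - i - j := by omega
      have e2 : ((j : ℝ) + 1) ^ (N - i) = ((j : ℝ) + 1) ^ j * ((j : ℝ) + 1) ^ (N - i - j) := by
        rw [← pow_add]; congr 1; omega
      rw [e1, e2, neg_pow ((j : ℝ) + 1)]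
      linear_combination (-(z ^ i * (-1) ^ (N - i - j) * ((j : ℝ) + 1) ^ j *
        ((j : ℝ) + 1) ^ (N - i - j) / ((j : ℝ) + 1))) * c5
  rw [sum_congr rfl h2, sum_range_succ, sum_eq_zero]
  · simp
  · intro i hi
    rw [mem_range] at hi
    have := alt_zero (M := N - i) (by omega)
    have h3 : ∑ j ∈ range (N - i + 1), (-1 : ℝ) ^ (N - i - j) *
        ((N - i).choose j : ℝ) * (((j : ℝ) + 1) ^ (N - i) / ((j : ℝ) + 1)) =
        ∑ j ∈ range (N - i + 1), (-1 : ℝ) ^ (N - i - j) * ((N - i).choose j : ℝ) *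
          ((j : ℝ) + 1) ^ (N - i - 1) := by
      refine sum_congr rfl fun j _ => ?_
      have hj : ((j : ℝ) + 1) ≠ 0 := by positivity
      have e : ((j : ℝ) + 1) ^ (N - i) = ((j : ℝ) + 1) ^ (N - i - 1) * ((j : ℝ) + 1) := by
        rw [← pow_succ]; congr 1; omega
      rw [e, mul_div_assoc, div_self hj, mul_one]
    rw [h3, this, mul_zero]

/-- the weights of the recursion for the complete graph -/
noncomputable def pw (N k : ℕ) : ℝ := (N.choose k : ℝ) * ((k : ℝ) * (k * kap k) * kap (N + 1 - k))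

lemma sum_pw (N : ℕ) : ∑ k ∈ range (N + 1), pw N k = N * kap (N + 1) := by
  have h := abel_id N ((N : ℝ) + 1)
  rw [sum_range_succ] at h
  rw [← sum_range_reflect, sum_range_succ]
  have h0 : pw N (N + 1 - 1 - N) = 0 := by simp [pw]
  rw [h0, add_zero]
  have h1 : ∑ j ∈ range N, pw N (N + 1 - 1 - j) = ∑ j ∈ range N, (N.choose j : ℝ) *
      (((j : ℝ) + 1) ^ j / ((j : ℝ) + 1)) * ((N : ℝ) + 1 - ((j : ℝ) + 1)) ^ (N - j) := by
    refine sum_congr rfl fun j hj => ?_
    rw [mem_range] at hj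
    have e1 : N + 1 - 1 - j = N - j := by omega
    have e2 : N + 1 - (N - j) = j + 1 := by omega
    have e3 : ((N - j : ℕ) : ℝ) = (N : ℝ) + 1 - ((j : ℝ) + 1) := by
      rw [Nat.cast_sub hj.le]; ring
    have e4 : (0 : ℝ) < ((N - j : ℕ) : ℝ) := by exact_mod_cast (by omega : 0 < N - j)
    rw [e1, pw, e2, Nat.choose_symm hj.le, ← e3, kap, kap]
    push_cast
    have hj1 : ((j : ℝ) + 1) ≠ 0 := by positivity
    field_simp
    ring
  rw [h1]
  have hN : ((N : ℝ) + 1) ≠ 0 := by positivity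
  simp only [Nat.choose_self, Nat.cast_one, one_mul, Nat.sub_self, pow_zero, mul_one] at h
  rw [kap]
  push_cast
  rw [eq_sub_of_add_eq h]
  field_simp
  ring

/-- the ratio in the rooted inequality -/
noncomputable def cc (N : ℕ) : ℝ := kap (N + 1) / (N * kap N)

lemma cc_nonneg (N : ℕ) : 0 ≤ cc N := by
  unfold cc kap
  positivity

lemma cc_eq {j : ℕ} (hj : 1 ≤ j) : ((j : ℝ) + 1) * cc j = j * (1 + 1 / (j : ℝ)) ^ j := by
  have h : (0 : ℝ) < j := by exact_mod_cast hj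
  have e : (1 + 1 / (j : ℝ)) = (j + 1) / j := by field_simp
  rw [e, div_pow, cc, kap, kap]
  push_cast
  field_simp
  ring

lemma euler_step {j : ℕ} (hj : 1 ≤ j) :
    (1 + 1 / (j : ℝ)) ^ j ≤ (1 + 1 / ((j : ℝ) + 1)) ^ (j + 1) := by
  have h : (0 : ℝ) < j := by exact_mod_cast hj
  have hb := one_add_mul_le_pow (a := -(1 / ((j : ℝ) + 1) ^ 2)) (by
    have : 1 / ((j : ℝ) + 1) ^ 2 ≤ 1 := by
      rw [div_le_one (by positivity)]; nlinarith
    linarith) j
  have e : (1 + 1 / ((j : ℝ) + 1)) = (1 + 1 / (j : ℝ)) * (1 + -(1 / ((j : ℝ) + 1) ^ 2)) := by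
    field_simp; ring
  have h2 : 1 ≤ (1 + (j : ℝ) * -(1 / ((j : ℝ) + 1) ^ 2)) * (1 + 1 / ((j : ℝ) + 1)) := by
    have : (1 + (j : ℝ) * -(1 / ((j : ℝ) + 1) ^ 2)) * (1 + 1 / ((j : ℝ) + 1)) =
        1 + 1 / ((j : ℝ) + 1) ^ 3 := by
      field_simp; ring
    rw [this]
    have : 0 < 1 / ((j : ℝ) + 1) ^ 3 := by positivity
    linarith
  rw [pow_succ]
  conv_rhs => rw [show (1 + 1 / ((j : ℝ) + 1)) ^ j =
    (1 + 1 / (j : ℝ)) ^ j * (1 + -(1 / ((j : ℝ) + 1) ^ 2)) ^ j by rw [e, mul_pow]]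
  rw [mul_assoc]
  refine le_mul_of_one_le_right (by positivity) (h2.trans ?_)
  exact mul_le_mul_of_nonneg_right hb (by positivity)

lemma euler_mono {j M : ℕ} (hj : 1 ≤ j) (hM : j ≤ M) :
    (1 + 1 / (j : ℝ)) ^ j ≤ (1 + 1 / (M : ℝ)) ^ M := by
  induction M, hM using Nat.le_induction with
  | base => exact le_rfl
  | succ M hM ih =>
    refine ih.trans ?_
    push_cast
    exact euler_step (hj.trans hM)

/-- the constant `D` -/
noncomputable def DD (M : ℕ) : ℝ := kap (M + 2) / (M * kap (M + 1))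

lemma euler_le_DD {M : ℕ} (hM : 1 ≤ M) : (1 + 1 / (M : ℝ)) ^ M ≤ DD M := by
  have h : (0 : ℝ) < M := by exact_mod_cast hM
  have hD : DD M = (1 + 1 / ((M : ℝ) + 1)) ^ M * (((M : ℝ) + 1) / M) := by
    have e : (1 + 1 / ((M : ℝ) + 1)) = (M + 2) / (M + 1) := by field_simp; ring
    rw [e, div_pow, DD, kap, kap]
    push_cast
    field_simp
    ring
  have hb := one_add_mul_le_pow (a := -(1 / ((M : ℝ) + 1) ^ 2)) (by
    have : 1 / ((M : ℝ) + 1) ^ 2 ≤ 1 := by
      rw [div_le_one (by positivity)]; nlinarith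
    linarith) M
  have e : (1 + 1 / ((M : ℝ) + 1)) = (1 + 1 / (M : ℝ)) * (1 + -(1 / ((M : ℝ) + 1) ^ 2)) := by
    field_simp; ring
  have h2 : 1 ≤ (1 + (M : ℝ) * -(1 / ((M : ℝ) + 1) ^ 2)) * (((M : ℝ) + 1) / M) := by
    have : (1 + (M : ℝ) * -(1 / ((M : ℝ) + 1) ^ 2)) * (((M : ℝ) + 1) / M) =
        1 + 1 / (M * ((M : ℝ) + 1)) := by
      field_simp; ring
    rw [this]
    have : 0 < 1 / (M * ((M : ℝ) + 1)) := by positivity
    linarith
  rw [hD, e, mul_pow, mul_assoc]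
  refine le_mul_of_one_le_right (by positivity) (h2.trans ?_)
  exact mul_le_mul_of_nonneg_right hb (by positivity)

lemma cc_le_DD1 {j M : ℕ} (hj : 1 ≤ j) (hM : j ≤ M) : ((j : ℝ) + 1) * cc j ≤ DD M * j := by
  rw [cc_eq hj, mul_comm]
  exact mul_le_mul_of_nonneg_right ((euler_mono hj hM).trans (euler_le_DD (hj.trans hM)))
    (Nat.cast_nonneg _)

lemma cc_succ_le_DD {j M : ℕ} (hj : 1 ≤ j) (hM : j ≤ M) : cc j ≤ DD M := by
  have h : (0 : ℝ) < j := by exact_mod_cast hj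
  have h1 := cc_le_DD1 hj hM
  have h2 := cc_nonneg j
  have : cc j * j ≤ DD M * j := by nlinarith
  exact le_of_mul_le_mul_right this h

lemma coupling (p q : ℕ → ℝ) (M : ℕ) (hp0 : p 0 = 0) (hq0 : q 0 = 0)
    (h1 : ∀ k, k ≤ M → p k ≤ q k) (h2 : ∀ k, 1 ≤ k → k ≤ M → p (k + 1) ≤ q k)
    (hs : ∑ k ∈ range (M + 2), p k = ∑ k ∈ range (M + 1), q k) :
    ∃ A : ℕ → ℝ, A 1 = 0 ∧ A (M + 1) = p (M + 1) ∧ (∀ k, k ≤ M + 1 → 0 ≤ A k) ∧
      (∀ k, 1 ≤ k → k ≤ M + 1 → A k ≤ p k) ∧ ∀ k, A (k + 1) + (p k - A k) = q k := by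
  refine ⟨fun k => ∑ j ∈ range k, (q j - p j), by simp [hp0, hq0], ?_, ?_, ?_, ?_⟩
  · rw [sum_range_succ] at hs
    simp only [sum_sub_distrib]
    linarith
  · intro k hk
    exact sum_nonneg fun j hj => sub_nonneg.mpr (h1 j (by rw [mem_range] at hj; omega))
  · have hend : ∑ j ∈ range (M + 1), (q j - p j) ≤ p (M + 1) := by
      rw [sum_range_succ] at hs
      simp only [sum_sub_distrib]
      linarith
    intro k hk1 hk
    induction hk using Nat.decreasingInduction with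
    | self => exact hend
    | of_succ k hk ih =>
      have ih' := ih (by omega)
      simp only [sum_range_succ] at ih' ⊢
      have := h2 k hk1 (by omega)
      linarith
  · intro k
    simp only [sum_range_succ]
    ring

lemma pw_pos {N k : ℕ} (hk : 1 ≤ k) (hN : k ≤ N) : 0 < pw N k := by
  have h1 : (0 : ℝ) < k := by exact_mod_cast hk
  have h2 : (0 : ℝ) < N.choose k := by exact_mod_cast Nat.choose_pos hN
  have h3 := kap_pos hk
  have h4 := kap_pos (m := N + 1 - k) (by omega)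
  unfold pw
  positivity

theorem exists_alpha {M : ℕ} (hM : 1 ≤ M) :
    ∃ α : ℕ → ℝ, α 1 = 0 ∧ α (M + 1) = 1 ∧ (∀ k, 1 ≤ k → k ≤ M + 1 → 0 ≤ α k ∧ α k ≤ 1) ∧
      ∀ k, 1 ≤ k → k ≤ M →
        ((k : ℝ) + 1) * α (k + 1) * cc k + k * (1 - α k) * cc (M + 1 - k) ≤ DD M * k := by
  have hMr : (0 : ℝ) < M := by exact_mod_cast hM
  set m : ℕ → ℝ := fun k => ((M : ℝ) + 1) * (M.choose k : ℝ) * (k * kap k) * kap (M + 1 - k)
    with hm
  have mpos : ∀ k, 1 ≤ k → k ≤ M → 0 < m k := by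
    intro k hk hN
    have h1 : (0 : ℝ) < k := by exact_mod_cast hk
    have h2 : (0 : ℝ) < M.choose k := by exact_mod_cast Nat.choose_pos hN
    have h3 := kap_pos hk
    have h4 := kap_pos (m := M + 1 - k) (by omega)
    simp only [hm]
    positivity
  have r1 : ∀ k, 1 ≤ k → k ≤ M → pw (M + 1) (k + 1) = ((k : ℝ) + 1) * cc k * m k := by
    intro k hk hN
    have h1 : (0 : ℝ) < k := by exact_mod_cast hk
    have h3 := kap_pos hk
    have c := Nat.add_one_mul_choose_eq M k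
    have c' : ((M : ℝ) + 1) * (M.choose k : ℝ) = ((M + 1).choose (k + 1) : ℝ) * (k + 1) := by
      exact_mod_cast c
    have e : M + 1 + 1 - (k + 1) = M + 1 - k := by omega
    simp only [hm, pw, cc, e]
    rw [c']
    push_cast
    field_simp
  have r2 : ∀ k, 1 ≤ k → k ≤ M → pw (M + 1) k = (k : ℝ) * cc (M + 1 - k) * m k := by
    intro k hk hN
    have h1 : (0 : ℝ) < ((M + 1 - k : ℕ) : ℝ) := by exact_mod_cast (by omega : 0 < M + 1 - k)
    have h3 := kap_pos (m := M + 1 - k) (by omega)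
    have c := Nat.choose_mul_succ_eq M k
    have c' : ((M : ℝ) + 1) * (M.choose k : ℝ) =
        ((M + 1).choose k : ℝ) * ((M + 1 - k : ℕ) : ℝ) := by
      rw [mul_comm]; exact_mod_cast c
    have e : M + 1 + 1 - k = M + 1 - k + 1 := by omega
    simp only [hm, pw, cc, e]
    rw [c']
    field_simp
  have r3 : ∀ k, DD M * k * m k = ((M : ℝ) + 1) * DD M * pw M k := by
    intro k
    simp only [hm, pw]
    ring
  obtain ⟨A, a1, a2, a3, a4, a5⟩ := coupling (pw (M + 1)) (fun k => DD M * k * m k) M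
    (by simp [pw]) (by simp) (by
      intro k hk
      rcases Nat.eq_zero_or_pos k with rfl | hk0
      · simp [pw]
      · rw [r2 k hk0 hk]
        refine mul_le_mul_of_nonneg_right ?_ (mpos k hk0 hk).le
        rw [mul_comm]
        exact mul_le_mul_of_nonneg_right (cc_succ_le_DD (by omega) (by omega))
          (Nat.cast_nonneg _))
    (by
      intro k hk1 hk
      rw [r1 k hk1 hk]
      exact mul_le_mul_of_nonneg_right (cc_le_DD1 hk1 hk) (mpos k hk1 hk).le)
    (by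
      simp only [r3]
      rw [← mul_sum, sum_pw, sum_pw, DD]
      have := kap_pos (m := M + 1) (by omega)
      push_cast
      field_simp)
  refine ⟨fun k => A k / pw (M + 1) k, by simp [a1], ?_, ?_, ?_⟩
  · simp only [a2]
    exact div_self (pw_pos (by omega) le_rfl).ne'
  · intro k hk1 hk
    have hp := pw_pos hk1 hk
    exact ⟨div_nonneg (a3 k hk) hp.le, (div_le_one hp).mpr (a4 k hk1 hk)⟩
  · intro k hk1 hk
    have hp1 := pw_pos (N := M + 1) (k := k + 1) (by omega) (by omega)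
    have hp2 := pw_pos (N := M + 1) (k := k) hk1 (by omega)
    have hmk := mpos k hk1 hk
    refine le_of_mul_le_mul_right (le_of_eq ?_) hmk
    have e := a5 k
    rw [← e]
    have f1 : ((k : ℝ) + 1) * (A (k + 1) / pw (M + 1) (k + 1)) * cc k * m k = A (k + 1) := by
      have : ((k : ℝ) + 1) * (A (k + 1) / pw (M + 1) (k + 1)) * cc k * m k =
          (A (k + 1) / pw (M + 1) (k + 1)) * (((k : ℝ) + 1) * cc k * m k) := by ring
      rw [this, ← r1 k hk1 hk, div_mul_cancel₀ _ hp1.ne']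
    have f2 : (k : ℝ) * (1 - A k / pw (M + 1) k) * cc (M + 1 - k) * m k = pw (M + 1) k - A k := by
      have : (k : ℝ) * (1 - A k / pw (M + 1) k) * cc (M + 1 - k) * m k =
          (1 - A k / pw (M + 1) k) * ((k : ℝ) * cc (M + 1 - k) * m k) := by ring
      rw [this, ← r2 k hk1 hk, sub_mul, one_mul, div_mul_cancel₀ _ hp2.ne']
    rw [add_mul, f1, f2]

end Pool.Agent.H247Z.MST
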