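import Pool.Agent.H247Z.MST.Main

set_option autoImplicit false

namespace Pool.Agent.H247Z.MST

open Finset SimpleGraph

variable {V : Type*} [Fintype V] [DecidableEq V]

omit [Fintype V] [DecidableEq V] in
lemma reach_coe {G : SimpleGraph V} (H : G.Subgraph) (K : SimpleGraph H.verts)
    (L : SimpleGraph V) (hL : ∀ a b, L.Adj a b → H.Adj a b)
    (hK : ∀ a b : H.verts, L.Adj a b → K.Adj a b) {x y : V} (hx : x ∈ H.verts)
    (hxy : L.Reachable x y) : ∃ hy : y ∈ H.verts, K.Reachable ⟨x, hx⟩ ⟨y, hy⟩ := by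
  rw [reachable_iff_reflTransGen] at hxy
  induction hxy with
  | refl => exact ⟨hx, Reachable.refl _⟩
  | @tail b c _ hbc ih =>
    obtain ⟨hb, hr⟩ := ih
    have hc : c ∈ H.verts := H.edge_vert (hL _ _ hbc).symm
    exact ⟨hc, hr.trans (Adj.reachable (hK ⟨b, hb⟩ ⟨c, hc⟩ hbc))⟩

omit [Fintype V] [DecidableEq V] in
lemma isTree_iff_treeOn {G : SimpleGraph V} (H : G.Subgraph) (S : Finset V)
    (hS : (S : Set V) = H.verts) (hne : S.Nonempty) :
    H.coe.IsTree ↔ TreeOn S H.spanningCoe := by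
  have hmem : ∀ a, a ∈ S ↔ a ∈ H.verts := fun a => by rw [← hS]; rfl
  constructor
  · rintro ⟨hc, ha⟩
    refine ⟨fun a b h => (hmem a).mpr (H.edge_vert h), ?_, ?_⟩
    · intro a ha b hb
      exact (hc.preconnected ⟨a, (hmem a).mp ha⟩ ⟨b, (hmem b).mp hb⟩).map
        H.coeEmbeddingSpanningCoe.toHom
    · rw [isAcyclic_iff_forall_adj_isBridge] at ha ⊢
      intro v w hvw
      have hv : v ∈ H.verts := H.edge_vert hvw
      have hw : w ∈ H.verts := H.edge_vert hvw.symm
      have hb := isBridge_iff.mp (ha (v := ⟨v, hv⟩) (w := ⟨w, hw⟩) hvw)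
      rw [isBridge_iff]
      intro hr
      obtain ⟨hy, h⟩ := reach_coe H (H.coe.deleteEdges {s(⟨v, hv⟩, ⟨w, hw⟩)})
        (H.spanningCoe.deleteEdges {s(v, w)}) (fun a b h => (deleteEdges_adj.mp h).1) (by
          intro a b h
          rw [deleteEdges_adj] at h ⊢
          refine ⟨h.1, fun h' => h.2 ?_⟩
          rw [Set.mem_singleton_iff] at h' ⊢
          have := congrArg (Sym2.map Subtype.val) h'
          simpa using this) hv hr
      exact hb h
  · intro t
    refine ⟨?_, t.acyc.embedding H.coeEmbeddingSpanningCoe⟩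
    obtain ⟨x, hx⟩ := hne
    have : Nonempty H.verts := ⟨⟨x, (hmem x).mp hx⟩⟩
    refine ⟨fun a b => ?_⟩
    obtain ⟨_, h⟩ := reach_coe H H.coe H.spanningCoe (fun _ _ h => h) (fun _ _ h => h) a.2
      (t.conn a ((hmem a).mpr a.2) b ((hmem b).mpr b.2))
    exact h

lemma ncard_zero (G : SimpleGraph V) :
    Set.ncard {H : G.Subgraph | H.coe.IsTree ∧ H.verts.ncard = 0} = 0 := by
  have : {H : G.Subgraph | H.coe.IsTree ∧ H.verts.ncard = 0} = ∅ := by
    ext H
    simp only [Set.mem_ofPred_eq, Set.mem_empty_iff_false, iff_false, not_and]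
    intro ht h0
    obtain ⟨x, hx⟩ := ht.connected.nonempty
    rw [Set.ncard_eq_zero (Set.toFinite _)] at h0
    rw [h0] at hx
    exact hx
  rw [this, Set.ncard_empty]

lemma ncard_eq_sk (G : SimpleGraph V) {k : ℕ} (hk : 1 ≤ k) :
    (Set.ncard {H : G.Subgraph | H.coe.IsTree ∧ H.verts.ncard = k} : ℝ) = sk G k := by
  classical
  have h1 : sk G k = (((powersetCard k (univ : Finset V)).sigma (fun S => trees G S)).card : ℝ) := by
    rw [card_sigma, sk]
    push_cast
    rfl
  rw [h1, ← Set.ncard_coe_finset]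
  congr 1
  refine Set.ncard_congr (fun H _ => ⟨H.verts.toFinset, H.spanningCoe⟩) ?_ ?_ ?_
  · rintro H ⟨ht, hc⟩
    have hc' : H.verts.toFinset.card = k := by rw [← hc, Set.ncard_eq_toFinset_card']
    simp only [coe_sigma, Set.mem_sigma_iff, mem_coe, mem_powersetCard, subset_univ, true_and,
      mem_trees]
    exact ⟨hc', H.spanningCoe_le,
      (isTree_iff_treeOn H _ (Set.coe_toFinset _) (card_pos.mp (by omega))).mp ht⟩
  · intro H H' _ _ heq
    simp only [Sigma.mk.injEq, Set.toFinset_inj, heq_eq_eq] at heq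
    exact Subgraph.ext heq.1 (Subgraph.spanningCoe_inj.mp heq.2)
  · rintro ⟨S, T⟩ hST
    simp only [coe_sigma, Set.mem_sigma_iff, mem_coe, mem_powersetCard, subset_univ, true_and,
      mem_trees] at hST
    obtain ⟨hc, hle, t⟩ := hST
    let H : G.Subgraph :=
      { verts := (S : Set V), Adj := T.Adj, adj_sub := fun h => hle h,
        edge_vert := fun h => t.supp _ _ h, symm := T.symm }
    have hsp : H.spanningCoe = T := rfl
    refine ⟨H, ⟨(isTree_iff_treeOn H S rfl (card_pos.mp (by omega))).mpr (hsp ▸ t), ?_⟩, ?_⟩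
    · change (S : Set V).ncard = k
      rw [Set.ncard_coe_finset, hc]
    · refine Sigma.ext ?_ (heq_of_eq hsp)
      ext x; simp [H]

lemma mean_le (n : ℕ) (a b : ℕ → ℝ) (ha : ∀ k, 0 ≤ a k) (a0 : a 0 = 0) (b0 : b 0 = 0)
    (hb : ∀ k, 1 ≤ k → k ≤ n → 0 < b k)
    (hr : ∀ k, 1 ≤ k → a (k + 1) * b k ≤ a k * b (k + 1)) :
    (∑ k ∈ range (n + 1), (k : ℝ) * a k) / (∑ k ∈ range (n + 1), a k) ≤
      (∑ k ∈ range (n + 1), (k : ℝ) * b k) / (∑ k ∈ range (n + 1), b k) := by
  have hb' : ∀ k, k ≤ n → 0 ≤ b k := by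
    intro k hk
    rcases Nat.eq_zero_or_pos k with rfl | h
    · exact b0.ge
    · exact (hb k h hk).le
  have hcross : ∀ i j, i ≤ j → j ≤ n → a j * b i ≤ a i * b j := by
    intro i j hij hj
    rcases Nat.eq_zero_or_pos i with rfl | hi
    · simp [a0, b0]
    induction j, hij using Nat.le_induction with
    | base => exact le_rfl
    | succ j hij ih =>
      have ih' := ih (by omega)
      have hbj := hb j (by omega) (by omega)
      have h1 := hr j (by omega)
      have hbi := hb' i (by omega)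
      have hbj1 := hb' (j + 1) hj
      have : a (j + 1) * b i * b j ≤ a i * b (j + 1) * b j := by
        calc a (j + 1) * b i * b j = (a (j + 1) * b j) * b i := by ring
          _ ≤ (a j * b (j + 1)) * b i := mul_le_mul_of_nonneg_right h1 hbi
          _ = (a j * b i) * b (j + 1) := by ring
          _ ≤ (a i * b j) * b (j + 1) := mul_le_mul_of_nonneg_right ih' hbj1
          _ = _ := by ring
      exact le_of_mul_le_mul_right this hbj
  have hRHS : 0 ≤ (∑ k ∈ range (n + 1), (k : ℝ) * b k) / (∑ k ∈ range (n + 1), b k) := by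
    refine div_nonneg (sum_nonneg fun k hk => ?_) (sum_nonneg fun k hk => ?_)
    · exact mul_nonneg (Nat.cast_nonneg _) (hb' k (by rw [mem_range] at hk; omega))
    · exact hb' k (by rw [mem_range] at hk; omega)
  rcases (sum_nonneg (s := range (n + 1)) fun k _ => ha k).eq_or_lt with h0 | hapos
  · rw [← h0, div_zero]
    exact hRHS
  rcases Nat.eq_zero_or_pos n with rfl | hn
  · simp [a0] at hapos
  have hbpos : 0 < ∑ k ∈ range (n + 1), b k :=
    sum_pos' (fun k hk => hb' k (by rw [mem_range] at hk; omega))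
      ⟨1, by rw [mem_range]; omega, hb 1 le_rfl hn⟩
  rw [div_le_div_iff₀ hapos hbpos]
  have key : 0 ≤ ∑ i ∈ range (n + 1), ∑ j ∈ range (n + 1),
      ((j : ℝ) - i) * (a i * b j - a j * b i) := by
    refine sum_nonneg fun i hi => sum_nonneg fun j hj => ?_
    rw [mem_range] at hi hj
    rcases le_total i j with h | h
    · have : (i : ℝ) ≤ j := by exact_mod_cast h
      exact mul_nonneg (by linarith) (by linarith [hcross i j h (by omega)])
    · have : (j : ℝ) ≤ i := by exact_mod_cast h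
      exact mul_nonneg_of_nonpos_of_nonpos (by linarith) (by linarith [hcross j i h (by omega)])
  have e : ∑ i ∈ range (n + 1), ∑ j ∈ range (n + 1), ((j : ℝ) - i) * (a i * b j - a j * b i) =
      2 * ((∑ k ∈ range (n + 1), (k : ℝ) * b k) * (∑ k ∈ range (n + 1), a k) -
        (∑ k ∈ range (n + 1), (k : ℝ) * a k) * (∑ k ∈ range (n + 1), b k)) := by
    have t1 : ∑ i ∈ range (n + 1), ∑ j ∈ range (n + 1), a i * ((j : ℝ) * b j) =
        (∑ k ∈ range (n + 1), (k : ℝ) * b k) * (∑ k ∈ range (n + 1), a k) := by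
      rw [← sum_mul_sum, mul_comm]
    have t2 : ∑ i ∈ range (n + 1), ∑ j ∈ range (n + 1), ((i : ℝ) * b i) * a j =
        (∑ k ∈ range (n + 1), (k : ℝ) * b k) * (∑ k ∈ range (n + 1), a k) := by
      rw [← sum_mul_sum]
    have t3 : ∑ i ∈ range (n + 1), ∑ j ∈ range (n + 1), ((i : ℝ) * a i) * b j =
        (∑ k ∈ range (n + 1), (k : ℝ) * a k) * (∑ k ∈ range (n + 1), b k) := by
      rw [← sum_mul_sum]
    have t4 : ∑ i ∈ range (n + 1), ∑ j ∈ range (n + 1), b i * ((j : ℝ) * a j) =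
        (∑ k ∈ range (n + 1), (k : ℝ) * a k) * (∑ k ∈ range (n + 1), b k) := by
      rw [← sum_mul_sum, mul_comm]
    have : ∑ i ∈ range (n + 1), ∑ j ∈ range (n + 1), ((j : ℝ) - i) * (a i * b j - a j * b i) =
        ∑ i ∈ range (n + 1), ∑ j ∈ range (n + 1), a i * ((j : ℝ) * b j) +
        ∑ i ∈ range (n + 1), ∑ j ∈ range (n + 1), ((i : ℝ) * b i) * a j -
        ∑ i ∈ range (n + 1), ∑ j ∈ range (n + 1), ((i : ℝ) * a i) * b j -
        ∑ i ∈ range (n + 1), ∑ j ∈ range (n + 1), b i * ((j : ℝ) * a j) := by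
      simp only [← sum_add_distrib, ← sum_sub_distrib]
      refine sum_congr rfl fun i _ => sum_congr rfl fun j _ => ?_
      ring
    rw [this, t1, t2, t3, t4]
    ring
  rw [e] at key
  linarith

theorem mean_subtree_le (n : ℕ) (G : SimpleGraph (Fin n)) :
    (∑ k ∈ Finset.range (n + 1),
        (k : ℝ) * (Set.ncard {H : G.Subgraph | H.coe.IsTree ∧ H.verts.ncard = k} : ℝ)) /
      (∑ k ∈ Finset.range (n + 1),
        (Set.ncard {H : G.Subgraph | H.coe.IsTree ∧ H.verts.ncard = k} : ℝ))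
    ≤
    (∑ k ∈ Finset.range (n + 1),
        (k : ℝ) * (Set.ncard {H : (⊤ : SimpleGraph (Fin n)).Subgraph |
          H.coe.IsTree ∧ H.verts.ncard = k} : ℝ)) /
      (∑ k ∈ Finset.range (n + 1),
        (Set.ncard {H : (⊤ : SimpleGraph (Fin n)).Subgraph |
          H.coe.IsTree ∧ H.verts.ncard = k} : ℝ)) := by
  refine mean_le n (fun k => (Set.ncard {H : G.Subgraph | H.coe.IsTree ∧ H.verts.ncard = k} : ℝ))
    (fun k => (Set.ncard {H : (⊤ : SimpleGraph (Fin n)).Subgraph |
          H.coe.IsTree ∧ H.verts.ncard = k} : ℝ)) (fun _ => Nat.cast_nonneg _) ?_ ?_ ?_ ?_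
  · simp only [ncard_zero, Nat.cast_zero]
  · simp only [ncard_zero, Nat.cast_zero]
  · intro k hk hn
    simp only [ncard_eq_sk _ hk, sk_top hk, Fintype.card_fin]
    have h2 : (0 : ℝ) < n.choose k := by exact_mod_cast Nat.choose_pos hn
    exact mul_pos h2 (kap_pos hk)
  · intro k hk
    simp only [ncard_eq_sk _ hk, ncard_eq_sk _ (show 1 ≤ k + 1 by omega)]
    exact sk_ratio G hk

end Pool.Agent.H247Z.MST
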