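import Pool.Agent.H247Z.MST.Tree
import Pool.Agent.H247Z.MST.Arith

set_option autoImplicit false

namespace Pool.Agent.H247Z.MST

open Finset SimpleGraph

variable {V : Type*} [Fintype V] [DecidableEq V]

omit [Fintype V] in
lemma reindex1 (A : Finset V) (F : V → Finset V → ℝ) :
    ∑ B ∈ A.powerset, ∑ v ∈ B, F v (B.erase v) =
      ∑ v ∈ A, ∑ B ∈ (A.erase v).powerset, F v B := by
  rw [sum_comm' (t' := A) (s' := fun v => A.powerset.filter (v ∈ ·))]
  · refine sum_congr rfl fun v hv => ?_
    refine sum_bij' (fun B _ => B.erase v) (fun B _ => insert v B) ?_ ?_ ?_ ?_ ?_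
    · intro B hB
      simp only [mem_filter, mem_powerset] at hB ⊢
      exact erase_subset_erase v hB.1
    · intro B hB
      simp only [mem_filter, mem_powerset] at hB ⊢
      exact ⟨insert_subset hv (hB.trans (erase_subset _ _)), mem_insert_self _ _⟩
    · intro B hB
      simp only [mem_filter, mem_powerset] at hB
      exact insert_erase hB.2
    · intro B hB
      simp only [mem_powerset] at hB
      exact erase_insert (fun h => notMem_erase v A (hB h))
    · intro B _
      rfl
  · intro B v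
    simp only [mem_filter, mem_powerset]
    constructor
    · rintro ⟨h1, h2⟩
      exact ⟨⟨h1, h2⟩, h1 h2⟩
    · rintro ⟨h, -⟩
      exact h

omit [Fintype V] in
lemma reindex2 (A : Finset V) (F : V → Finset V → ℝ) :
    ∑ B ∈ A.powerset, ∑ v ∈ A \ B, F v B = ∑ v ∈ A, ∑ B ∈ (A.erase v).powerset, F v B := by
  refine sum_comm' ?_
  intro B v
  simp only [mem_powerset, mem_sdiff, subset_erase]
  tauto

/-- real form of the weight of a branch at the root -/
noncomputable def WW (G : SimpleGraph V) (r : V) (B : Finset V) : ℝ :=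
  (dg G r B : ℝ) * (tau G B : ℝ)

lemma WW_nonneg (G : SimpleGraph V) (r : V) (B : Finset V) : 0 ≤ WW G r B := by
  unfold WW; positivity

lemma tau_rec_real (G : SimpleGraph V) {A : Finset V} {r : V} (hr : r ∉ A) :
    (A.card : ℝ) * tau G (insert r A) = ∑ B ∈ A.powerset,
      (B.card : ℝ) * WW G r B * (tau G (insert r (A \ B)) : ℝ) := by
  have := tau_rec' G hr
  unfold WW
  exact_mod_cast this

/-- the rooted inequality at size `N` -/
def Rooted (G : SimpleGraph V) (N : ℕ) : Prop :=
  ∀ (A : Finset V) (r : V), r ∉ A → A.card = N →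
    (tau G (insert r A) : ℝ) ≤ cc N * ∑ v ∈ A, (tau G (insert r (A.erase v)) : ℝ)

lemma unroot {G : SimpleGraph V} {k : ℕ} (h : Rooted G k) {B : Finset V} (hB : B.card = k + 1)
    {ρ : V} (hρ : ρ ∈ B) : (tau G B : ℝ) ≤ cc k * ∑ v ∈ B.erase ρ, (tau G (B.erase v) : ℝ) := by
  have := h (B.erase ρ) ρ (notMem_erase _ _) (by rw [card_erase_of_mem hρ, hB]; rfl)
  rw [insert_erase hρ] at this
  refine this.trans (le_of_eq ?_)
  congr 1
  refine sum_congr rfl fun v hv => ?_
  rw [erase_right_comm, insert_erase]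
  rw [mem_erase] at hv ⊢
  exact ⟨hv.1.symm, hρ⟩

lemma WW_le {G : SimpleGraph V} {k : ℕ} (h : Rooted G k) (r : V) {B : Finset V}
    (hB : B.card = k + 1) : WW G r B ≤ cc k * ∑ v ∈ B, WW G r (B.erase v) := by
  classical
  have h1 : WW G r B = ∑ ρ ∈ B.filter (G.Adj r), (tau G B : ℝ) := by
    rw [sum_const, nsmul_eq_mul, WW, dg]
  have h2 : ∑ v ∈ B, WW G r (B.erase v) =
      ∑ ρ ∈ B.filter (G.Adj r), ∑ v ∈ B.erase ρ, (tau G (B.erase v) : ℝ) := by
    rw [sum_comm' (t' := B) (s' := fun v => (B.erase v).filter (G.Adj r))]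
    · refine sum_congr rfl fun v _ => ?_
      rw [sum_const, nsmul_eq_mul, WW, dg]
    · intro ρ v
      simp only [mem_filter, mem_erase]
      constructor
      · rintro ⟨⟨h1, h2⟩, h3, h4⟩
        exact ⟨⟨⟨h3.symm, h1⟩, h2⟩, h4⟩
      · rintro ⟨⟨⟨h3, h1⟩, h2⟩, h4⟩
        exact ⟨⟨h1, h2⟩, h3.symm, h4⟩
  rw [h1, h2, mul_sum]
  exact sum_le_sum fun ρ hρ => unroot h hB (mem_filter.mp hρ).1

lemma rooted_one (G : SimpleGraph V) : Rooted G 1 := by
  classical
  intro A r hr hA
  obtain ⟨v, rfl⟩ := card_eq_one.mp hA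
  have h := tau_rec_real G hr
  have hp : ({v} : Finset V).powerset = {∅, {v}} := by
    ext B; simp [subset_singleton_iff]
  rw [hp, sum_pair (by simp)] at h
  have hc : cc 1 = 1 := by
    simp [cc, kap]
  have hd : (dg G r {v} : ℝ) ≤ 1 := by
    have : dg G r {v} ≤ 1 := (card_filter_le _ _).trans (by simp)
    exact_mod_cast this
  simp only [card_singleton, Nat.cast_one, one_mul, card_empty, Nat.cast_zero, zero_mul, zero_add,
    sdiff_self, bot_eq_empty, insert_empty_eq, tau_singleton, mul_one, WW] at h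
  simp only [hc, sum_singleton, erase_singleton, insert_empty_eq, tau_singleton, Nat.cast_one,
    mul_one]
  rw [h]
  exact hd

theorem rooted (G : SimpleGraph V) (N : ℕ) (hN : 1 ≤ N) : Rooted G N := by
  induction N using Nat.strong_induction_on with
  | _ N ih =>
  rcases Nat.eq_or_lt_of_le hN with rfl | hN2
  · exact rooted_one G
  obtain ⟨M, rfl⟩ : ∃ M, N = M + 1 := ⟨N - 1, by omega⟩
  have hM : 1 ≤ M := by omega
  obtain ⟨α, a1, aN, a01, hα⟩ := exists_alpha hM
  intro A r hr hA
  set h : Finset V → ℝ := fun C => (tau G (insert r C) : ℝ) with hh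
  have hnn : ∀ C, 0 ≤ h C := fun C => Nat.cast_nonneg _
  set a : ℕ → ℝ := fun k => (k : ℝ) * α k * cc (k - 1) with ha
  set b : ℕ → ℝ := fun k => (k : ℝ) * (1 - α k) * cc (M + 1 - k) with hb
  have step : ∀ B ∈ A.powerset, (B.card : ℝ) * WW G r B * h (A \ B) ≤
      ∑ v ∈ B, a ((B.erase v).card + 1) * WW G r (B.erase v) * h ((A.erase v) \ (B.erase v)) +
      ∑ v ∈ A \ B, b B.card * WW G r B * h ((A.erase v) \ B) := by
    intro B hB
    rw [mem_powerset] at hB
    have hBc : B.card ≤ M + 1 := hA ▸ card_le_card hB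
    have e1 : ∑ v ∈ B, a ((B.erase v).card + 1) * WW G r (B.erase v) *
        h ((A.erase v) \ (B.erase v)) =
        (B.card : ℝ) * α B.card * (cc (B.card - 1) * ∑ v ∈ B, WW G r (B.erase v)) *
          h (A \ B) := by
      rw [mul_sum, mul_sum, sum_mul]
      refine sum_congr rfl fun v hv => ?_
      rw [card_erase_add_one hv]
      have : (A.erase v) \ (B.erase v) = A \ B := by
        ext x
        simp only [mem_sdiff, mem_erase]
        constructor
        · rintro ⟨⟨h1, h2⟩, h3⟩
          exact ⟨h2, fun h4 => h3 ⟨h1, h4⟩⟩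
        · rintro ⟨h1, h2⟩
          exact ⟨⟨fun h3 => h2 (h3 ▸ hv), h1⟩, fun h3 => h2 h3.2⟩
      rw [this]
      simp only [ha]
      ring
    have e2 : ∑ v ∈ A \ B, b B.card * WW G r B * h ((A.erase v) \ B) =
        (B.card : ℝ) * (1 - α B.card) * WW G r B *
          (cc (M + 1 - B.card) * ∑ v ∈ A \ B, h ((A \ B).erase v)) := by
      rw [mul_sum, mul_sum]
      refine sum_congr rfl fun v _ => ?_
      rw [erase_sdiff_comm]
      simp only [hb]
      ring
    rw [e1, e2]
    rcases Nat.eq_zero_or_pos B.card with h0 | hpos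
    · simp [h0]
    obtain ⟨b0, b1⟩ := a01 B.card hpos hBc
    have hW := WW_nonneg G r B
    have hhn := hnn (A \ B)
    have hk : (0 : ℝ) ≤ B.card := Nat.cast_nonneg _
    have i1 : (B.card : ℝ) * α B.card * WW G r B * h (A \ B) ≤
        (B.card : ℝ) * α B.card * (cc (B.card - 1) * ∑ v ∈ B, WW G r (B.erase v)) *
          h (A \ B) := by
      rcases Nat.eq_or_lt_of_le hpos with h1 | h2
      · have : B.card = 1 := h1.symm
        simp [this, a1]
      · refine mul_le_mul_of_nonneg_right (mul_le_mul_of_nonneg_left ?_ (by positivity)) hhn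
        exact WW_le (ih (B.card - 1) (by omega) (by omega)) r (by omega)
    have i2 : (B.card : ℝ) * (1 - α B.card) * WW G r B * h (A \ B) ≤
        (B.card : ℝ) * (1 - α B.card) * WW G r B *
          (cc (M + 1 - B.card) * ∑ v ∈ A \ B, h ((A \ B).erase v)) := by
      rcases Nat.eq_or_lt_of_le hBc with h1 | h2
      · simp [h1, aN]
      · have hb1 : 0 ≤ 1 - α B.card := by linarith
        refine mul_le_mul_of_nonneg_left ?_ (by positivity)
        exact ih (M + 1 - B.card) (by omega) (by omega) (A \ B) r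
          (fun hx => hr (mem_sdiff.mp hx).1) (by rw [card_sdiff_of_subset hB, hA])
    linarith
  have tot := sum_le_sum step
  rw [← tau_rec_real G hr, sum_add_distrib,
    reindex1 A (fun v B => a (B.card + 1) * WW G r B * h ((A.erase v) \ B)),
    reindex2 A (fun v B => b B.card * WW G r B * h ((A.erase v) \ B)), ← sum_add_distrib] at tot
  have fin : ∀ v ∈ A, ∑ B ∈ (A.erase v).powerset, a (B.card + 1) * WW G r B * h ((A.erase v) \ B)
      + ∑ B ∈ (A.erase v).powerset, b B.card * WW G r B * h ((A.erase v) \ B) ≤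
      DD M * M * h (A.erase v) := by
    intro v hv
    have hc : (A.erase v).card = M := by rw [card_erase_of_mem hv, hA]; rfl
    have hrec := tau_rec_real G (A := A.erase v) (r := r) (fun hx => hr (mem_of_mem_erase hx))
    rw [hc] at hrec
    rw [mul_assoc, hrec, mul_sum, ← sum_add_distrib]
    refine sum_le_sum fun B hB => ?_
    rw [mem_powerset] at hB
    have hBc : B.card ≤ M := hc ▸ card_le_card hB
    have hW := WW_nonneg G r B
    have hhn := hnn ((A.erase v) \ B)
    have hco : a (B.card + 1) + b B.card ≤ DD M * B.card := by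
      rcases Nat.eq_zero_or_pos B.card with h0 | hpos
      · simp [h0, ha, hb, a1]
      · have := hα B.card hpos hBc
        simp only [ha, hb, Nat.add_sub_cancel]
        push_cast
        exact this
    have := mul_le_mul_of_nonneg_right hco (mul_nonneg hW hhn)
    simp only [hh] at this ⊢
    linarith
  have tot2 := tot.trans (sum_le_sum fin)
  rw [← mul_sum, hA] at tot2
  have hMr : (0 : ℝ) < M := by exact_mod_cast hM
  have hk := kap_pos (m := M + 1) (by omega)
  have hD : DD M * M = ((M + 1 : ℕ) : ℝ) * cc (M + 1) := by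
    rw [DD, cc]
    push_cast
    field_simp
  rw [hD, mul_assoc] at tot2
  exact le_of_mul_le_mul_left tot2 (by positivity)

theorem tau_top (N : ℕ) : ∀ (A : Finset V) (r : V), r ∉ A → A.card = N →
    (tau (⊤ : SimpleGraph V) (insert r A) : ℝ) = kap (N + 1) := by
  classical
  induction N using Nat.strong_induction_on with
  | _ N ih =>
  intro A r hr hA
  rcases Nat.eq_zero_or_pos N with rfl | hN
  · rw [card_eq_zero.mp hA]
    simp [tau_singleton, kap]
  have hrec := tau_rec_real (⊤ : SimpleGraph V) hr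
  have hterm : ∀ B ∈ A.powerset, (B.card : ℝ) * WW ⊤ r B * (tau ⊤ (insert r (A \ B)) : ℝ) =
      (B.card : ℝ) * (B.card * kap B.card) * kap (N + 1 - B.card) := by
    intro B hB
    rw [mem_powerset] at hB
    have hBc : B.card ≤ N := hA ▸ card_le_card hB
    rcases Nat.eq_zero_or_pos B.card with h0 | hpos
    · simp [h0]
    obtain ⟨ρ, hρ⟩ := card_pos.mp hpos
    have t1 := ih (B.card - 1) (by omega) (B.erase ρ) ρ (notMem_erase _ _) (card_erase_of_mem hρ)
    rw [insert_erase hρ, Nat.sub_add_cancel hpos] at t1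
    have t2 := ih (N - B.card) (by omega) (A \ B) r (fun hx => hr (mem_sdiff.mp hx).1)
      (by rw [card_sdiff_of_subset hB, hA])
    have t3 : dg (⊤ : SimpleGraph V) r B = B.card := by
      unfold dg
      congr 1
      ext x
      simp only [mem_filter, top_adj, and_iff_left_iff_imp]
      exact fun hx h => hr (h ▸ hB hx)
    rw [WW, t1, t2, t3, show N - B.card + 1 = N + 1 - B.card by omega]
  rw [sum_congr rfl hterm, sum_powerset_apply_card
    (fun k => (k : ℝ) * (k * kap k) * kap (N + 1 - k)), hA] at hrec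
  have hs := sum_pw N
  simp only [pw] at hs
  simp only [nsmul_eq_mul] at hrec
  rw [hs] at hrec
  have hNr : (0 : ℝ) < N := by exact_mod_cast hN
  exact mul_left_cancel₀ hNr.ne' hrec

theorem tau_top' {S : Finset V} (hS : S.Nonempty) :
    (tau (⊤ : SimpleGraph V) S : ℝ) = kap S.card := by
  obtain ⟨r, hr⟩ := hS
  have := tau_top (S.card - 1) (S.erase r) r (notMem_erase _ _) (card_erase_of_mem hr)
  rwa [insert_erase hr, Nat.sub_add_cancel (card_pos.mpr ⟨r, hr⟩)] at this

/-- number of subtrees of order `k` (for `k ≥ 1`) -/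
noncomputable def sk (G : SimpleGraph V) (k : ℕ) : ℝ :=
  ∑ S ∈ powersetCard k (univ : Finset V), (tau G S : ℝ)

lemma sk_nonneg (G : SimpleGraph V) (k : ℕ) : 0 ≤ sk G k :=
  sum_nonneg fun _ _ => Nat.cast_nonneg _

lemma sk_top {k : ℕ} (hk : 1 ≤ k) :
    sk (⊤ : SimpleGraph V) k = ((Fintype.card V).choose k : ℝ) * kap k := by
  rw [sk, sum_congr rfl (g := fun _ => kap k), sum_const, card_powersetCard, card_univ,
    nsmul_eq_mul]
  intro S hS
  rw [mem_powersetCard] at hS
  rw [tau_top' (card_pos.mp (by omega)), hS.2]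

lemma sum_erase_eq (F : Finset V → ℝ) (k : ℕ) :
    ∑ S ∈ powersetCard (k + 1) (univ : Finset V), ∑ v ∈ S, F (S.erase v) =
      ((Fintype.card V - k : ℕ) : ℝ) * ∑ S ∈ powersetCard k (univ : Finset V), F S := by
  have h1 := reindex1 (univ : Finset V) (fun _ B => if B.card = k then F B else 0)
  rw [← reindex2] at h1
  have l : ∑ B ∈ (univ : Finset V).powerset, ∑ v ∈ B,
      (if (B.erase v).card = k then F (B.erase v) else 0) =
      ∑ S ∈ powersetCard (k + 1) (univ : Finset V), ∑ v ∈ S, F (S.erase v) := by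
    rw [powersetCard_eq_filter, sum_filter]
    refine sum_congr rfl fun B _ => ?_
    split_ifs with hB
    · refine sum_congr rfl fun v hv => ?_
      rw [if_pos (by rw [card_erase_of_mem hv, hB]; rfl)]
    · refine sum_eq_zero fun v hv => ?_
      rw [if_neg]
      intro hc
      exact hB (by rw [← card_erase_add_one hv, hc])
  have r : ∑ B ∈ (univ : Finset V).powerset, ∑ v ∈ univ \ B,
      (if B.card = k then F B else 0) =
      ((Fintype.card V - k : ℕ) : ℝ) * ∑ S ∈ powersetCard k (univ : Finset V), F S := by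
    rw [powersetCard_eq_filter, sum_filter, mul_sum]
    refine sum_congr rfl fun B _ => ?_
    rw [sum_const, nsmul_eq_mul, card_sdiff_of_subset (subset_univ _), card_univ]
    split_ifs with hB
    · rw [hB]
    · simp
  rw [← l, ← r]
  exact h1

theorem sk_step (G : SimpleGraph V) {k : ℕ} (hk : 1 ≤ k) :
    ((k : ℝ) + 1) * sk G (k + 1) ≤ cc k * k * ((Fintype.card V - k : ℕ) : ℝ) * sk G k := by
  have h1 : ∀ S ∈ powersetCard (k + 1) (univ : Finset V),
      ((k : ℝ) + 1) * (tau G S : ℝ) ≤ cc k * k * ∑ v ∈ S, (tau G (S.erase v) : ℝ) := by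
    intro S hS
    rw [mem_powersetCard] at hS
    have h2 := sum_le_sum fun ρ (hρ : ρ ∈ S) => unroot (rooted G k hk) hS.2 hρ
    rw [sum_const, nsmul_eq_mul, hS.2, ← mul_sum,
      sum_comm' (t' := S) (s' := fun v => S.erase v)] at h2
    · push_cast at h2
      refine h2.trans (le_of_eq ?_)
      rw [mul_assoc, mul_sum (a := (k : ℝ))]
      congr 1
      refine sum_congr rfl fun v hv => ?_
      rw [sum_const, nsmul_eq_mul, card_erase_of_mem hv, hS.2]
      rfl
    · intro x y
      simp only [mem_erase]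
      constructor
      · rintro ⟨h1, h2, h3⟩
        exact ⟨⟨h2.symm, h1⟩, h3⟩
      · rintro ⟨⟨h2, h1⟩, h3⟩
        exact ⟨h1, h2.symm, h3⟩
  have h3 := sum_le_sum h1
  rw [← mul_sum, ← mul_sum, sum_erase_eq (fun S => (tau G S : ℝ))] at h3
  rw [mul_assoc (cc k * k)]
  exact h3

theorem sk_ratio (G : SimpleGraph V) {k : ℕ} (hk : 1 ≤ k) :
    sk G (k + 1) * sk (⊤ : SimpleGraph V) k ≤ sk G k * sk (⊤ : SimpleGraph V) (k + 1) := by
  have h := sk_step G hk
  have hkr : (0 : ℝ) < k := by exact_mod_cast hk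
  have hp := kap_pos hk
  have e : ((k : ℝ) + 1) * sk (⊤ : SimpleGraph V) (k + 1) =
      cc k * k * ((Fintype.card V - k : ℕ) : ℝ) * sk (⊤ : SimpleGraph V) k := by
    rw [sk_top hk, sk_top (by omega), cc]
    have c := Nat.choose_succ_right_eq (Fintype.card V) k
    have c' : (((Fintype.card V).choose (k + 1) : ℕ) : ℝ) * ((k : ℝ) + 1) =
        ((Fintype.card V).choose k : ℝ) * ((Fintype.card V - k : ℕ) : ℝ) := by exact_mod_cast c
    field_simp
    linear_combination kap (k + 1) * c'
  have h2 := mul_le_mul_of_nonneg_right h (sk_nonneg (⊤ : SimpleGraph V) k)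
  have : ((k : ℝ) + 1) * (sk G (k + 1) * sk (⊤ : SimpleGraph V) k) ≤
      ((k : ℝ) + 1) * (sk G k * sk (⊤ : SimpleGraph V) (k + 1)) := by
    calc ((k : ℝ) + 1) * (sk G (k + 1) * sk (⊤ : SimpleGraph V) k)
        = ((k : ℝ) + 1) * sk G (k + 1) * sk (⊤ : SimpleGraph V) k := by ring
      _ ≤ _ := h2
      _ = sk G k * (cc k * k * ((Fintype.card V - k : ℕ) : ℝ) * sk (⊤ : SimpleGraph V) k) := by
        ring
      _ = _ := by rw [← e]; ring
  exact le_of_mul_le_mul_left this (by positivity)

end Pool.Agent.H247Z.MST
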