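import Mathlib

set_option autoImplicit false

namespace Pool.Agent.H247Z.MST

open Finset SimpleGraph

variable {V : Type*} [Fintype V] [DecidableEq V]

/-- `T` is a tree with vertex set `S` (all other vertices are isolated and ignored) -/
structure TreeOn (S : Finset V) (T : SimpleGraph V) : Prop where
  supp : ∀ a b, T.Adj a b → a ∈ S
  conn : ∀ a ∈ S, ∀ b ∈ S, T.Reachable a b
  acyc : T.IsAcyclic

open Classical in
/-- the trees with vertex set `S` inside `G` -/
noncomputable def trees (G : SimpleGraph V) (S : Finset V) : Finset (SimpleGraph V) :=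
  univ.filter (fun T => T ≤ G ∧ TreeOn S T)

/-- number of spanning trees of the induced subgraph on `S` -/
noncomputable def tau (G : SimpleGraph V) (S : Finset V) : ℕ := (trees G S).card

lemma mem_trees {G T : SimpleGraph V} {S : Finset V} : T ∈ trees G S ↔ T ≤ G ∧ TreeOn S T := by
  classical
  simp [trees]

omit [Fintype V] [DecidableEq V] in
lemma reach_stay {T1 T2 H : SimpleGraph V} {p : V → Prop} (h1 : ∀ a b, T1.Adj a b → p a)
    (h2 : ∀ a b, T2.Adj a b → ¬ p a) (hH : H ≤ T1 ⊔ T2) {x y : V} (hx : p x)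
    (hxy : H.Reachable x y) : p y ∧ (H ⊓ T1).Reachable x y := by
  rw [reachable_iff_reflTransGen] at hxy
  induction hxy with
  | refl => exact ⟨hx, Reachable.refl _⟩
  | @tail b c _ hbc ih =>
    obtain ⟨hb, hr⟩ := ih
    have := hH hbc
    rcases this with h | h
    · exact ⟨h1 _ _ h.symm, hr.trans (Adj.reachable ⟨hbc, h⟩)⟩
    · exact absurd hb (h2 _ _ h)

omit [Fintype V] [DecidableEq V] in
lemma acyc_sup {T1 T2 : SimpleGraph V} {p : V → Prop} (h1 : ∀ a b, T1.Adj a b → p a)
    (h2 : ∀ a b, T2.Adj a b → ¬ p a) (a1 : T1.IsAcyclic) (a2 : T2.IsAcyclic) :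
    (T1 ⊔ T2).IsAcyclic := by
  rw [isAcyclic_iff_forall_adj_isBridge] at *
  intro v w hvw
  rw [isBridge_iff]
  intro hr
  rcases hvw with h | h
  · have := (reach_stay h1 h2 (deleteEdges_le _) (h1 _ _ h) hr).2
    refine (isBridge_iff.mp (a1 h)) (this.mono ?_)
    intro a b hab
    rw [deleteEdges_adj]
    exact ⟨hab.2, (deleteEdges_adj.mp hab.1).2⟩
  · have := (reach_stay (p := fun a => ¬ p a) (T1 := T2) (T2 := T1) h2
      (fun a b hab => not_not.mpr (h1 a b hab)) (by rw [sup_comm]; exact deleteEdges_le _)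
      (h2 _ _ h) hr).2
    refine (isBridge_iff.mp (a2 h)) (this.mono ?_)
    intro a b hab
    rw [deleteEdges_adj]
    exact ⟨hab.2, (deleteEdges_adj.mp hab.1).2⟩

/-- the part of `T` on the vertices satisfying `p` -/
def restr (T : SimpleGraph V) (p : V → Prop) : SimpleGraph V where
  Adj a b := T.Adj a b ∧ p a ∧ p b
  symm := ⟨fun _ _ h => ⟨h.1.symm, h.2.2, h.2.1⟩⟩
  loopless := ⟨fun _ h => h.1.ne rfl⟩

omit [Fintype V] [DecidableEq V] in
lemma restr_le (T : SimpleGraph V) (p : V → Prop) : restr T p ≤ T := fun _ _ h => h.1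

lemma glue_tree {A B : Finset V} {r ρ : V} {T1 T2 : SimpleGraph V} (hr : r ∉ A) (hB : B ⊆ A)
    (hρ : ρ ∈ B) (t1 : TreeOn B T1) (t2 : TreeOn (insert r (A \ B)) T2) :
    TreeOn (insert r A) (T1 ⊔ T2 ⊔ edge r ρ) := by
  have hrB : r ∉ B := fun h => hr (hB h)
  have hne : r ≠ ρ := fun h => hrB (h ▸ hρ)
  have h2 : ∀ a b, T2.Adj a b → ¬ a ∈ B := by
    intro a b hab ha
    have := t2.supp a b hab
    rw [mem_insert, mem_sdiff] at this
    rcases this with h | h
    · exact hrB (h ▸ ha)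
    · exact h.2 ha
  refine ⟨?_, ?_, ?_⟩
  · rintro a b ((h | h) | h)
    · exact mem_insert_of_mem (hB (t1.supp a b h))
    · have := t2.supp a b h
      rw [mem_insert, mem_sdiff] at this
      rcases this with h | h
      · exact h ▸ mem_insert_self _ _
      · exact mem_insert_of_mem h.1
    · rw [edge_adj] at h
      rcases h.1 with ⟨h, -⟩ | ⟨h, -⟩
      · exact h ▸ mem_insert_self _ _
      · exact h ▸ mem_insert_of_mem (hB hρ)
  · have key : ∀ a ∈ insert r A, (T1 ⊔ T2 ⊔ edge r ρ).Reachable r a := by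
      intro a ha
      by_cases haB : a ∈ B
      · have e1 : (T1 ⊔ T2 ⊔ edge r ρ).Adj r ρ := Or.inr (by rw [edge_adj]; simp [hne])
        exact e1.reachable.trans
          ((t1.conn ρ hρ a haB).mono (le_sup_left.trans le_sup_left))
      · refine (t2.conn r (mem_insert_self _ _) a ?_).mono (le_sup_right.trans le_sup_left)
        rw [mem_insert] at ha
        rcases ha with h | h
        · exact h ▸ mem_insert_self _ _
        · exact mem_insert_of_mem (mem_sdiff.mpr ⟨h, haB⟩)
    intro a ha b hb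
    exact (key a ha).symm.trans (key b hb)
  · refine IsAcyclic.sup_edge_of_not_reachable ?_ (acyc_sup t1.supp h2 t1.acyc t2.acyc)
    intro h
    exact hrB (reach_stay (p := fun a => a ∈ B) t1.supp h2 le_rfl hρ h.symm).1

lemma glue_props {A B : Finset V} {r ρ u : V} {T1 T2 : SimpleGraph V} (hr : r ∉ A) (hB : B ⊆ A)
    (hρ : ρ ∈ B) (hu : u ∈ B) (t1 : TreeOn B T1) (t2 : TreeOn (insert r (A \ B)) T2) :
    (∀ v, v ∈ B ↔ (restr (T1 ⊔ T2 ⊔ edge r ρ) (· ≠ r)).Reachable u v) ∧
    (∀ x ∈ B, (T1 ⊔ T2 ⊔ edge r ρ).Adj r x ↔ x = ρ) ∧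
    T1 = restr (T1 ⊔ T2 ⊔ edge r ρ) (· ∈ B) ∧ T2 = restr (T1 ⊔ T2 ⊔ edge r ρ) (· ∉ B) := by
  have hrB : r ∉ B := fun h => hr (hB h)
  have hne : r ≠ ρ := fun h => hrB (h ▸ hρ)
  have h2 : ∀ a b, T2.Adj a b → ¬ a ∈ B := by
    intro a b hab ha
    have := t2.supp a b hab
    rw [mem_insert, mem_sdiff] at this
    rcases this with h | h
    · exact hrB (h ▸ ha)
    · exact h.2 ha
  refine ⟨fun v => ⟨fun hv => ?_, fun hv => ?_⟩, fun x hx => ⟨?_, ?_⟩, ?_, ?_⟩
  · refine (t1.conn u hu v hv).mono ?_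
    intro a b hab
    exact ⟨Or.inl (Or.inl hab), fun h => hrB (h ▸ t1.supp a b hab),
      fun h => hrB (h ▸ t1.supp b a hab.symm)⟩
  · refine (reach_stay (p := fun a => a ∈ B) t1.supp h2 ?_ hu hv).1
    rintro a b ⟨h | h, ha, hb⟩
    · exact h
    · rw [edge_adj] at h
      rcases h.1 with ⟨h, -⟩ | ⟨-, h⟩
      · exact absurd h ha
      · exact absurd h hb
  · rintro ((h | h) | h)
    · exact absurd (t1.supp _ _ h) hrB
    · exact absurd hx (h2 _ _ h.symm)
    · rw [edge_adj] at h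
      rcases h.1 with ⟨-, h⟩ | ⟨h, -⟩
      · exact h
      · exact absurd h hne
  · rintro rfl
    exact Or.inr (by rw [edge_adj]; simp [hne])
  · ext a b
    constructor
    · intro h
      exact ⟨Or.inl (Or.inl h), t1.supp _ _ h, t1.supp _ _ h.symm⟩
    · rintro ⟨(h | h) | h, ha, hb⟩
      · exact h
      · exact absurd ha (h2 _ _ h)
      · rw [edge_adj] at h
        rcases h.1 with ⟨h, -⟩ | ⟨-, h⟩
        · exact absurd (h ▸ ha) hrB
        · exact absurd (h ▸ hb) hrB
  · ext a b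
    constructor
    · intro h
      exact ⟨Or.inl (Or.inr h), h2 _ _ h, h2 _ _ h.symm⟩
    · rintro ⟨(h | h) | h, ha, hb⟩
      · exact absurd (t1.supp _ _ h) ha
      · exact h
      · rw [edge_adj] at h
        rcases h.1 with ⟨-, h⟩ | ⟨h, -⟩
        · exact absurd (h ▸ hρ) hb
        · exact absurd (h ▸ hρ) ha

lemma split_tree {A : Finset V} {r u : V} {T : SimpleGraph V} (hr : r ∉ A) (hu : u ∈ A)
    (t : TreeOn (insert r A) T) :
    ∃ (B : Finset V) (ρ : V), B ⊆ A ∧ u ∈ B ∧ ρ ∈ B ∧ T.Adj r ρ ∧ TreeOn B (restr T (· ∈ B)) ∧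
      TreeOn (insert r (A \ B)) (restr T (· ∉ B)) ∧
      T = restr T (· ∈ B) ⊔ restr T (· ∉ B) ⊔ edge r ρ := by
  classical
  have hur : u ≠ r := fun h => hr (h ▸ hu)
  set B : Finset V := univ.filter (fun v => (restr T (· ≠ r)).Reachable u v) with hBdef
  have hmem : ∀ v, v ∈ B ↔ (restr T (· ≠ r)).Reachable u v := by
    intro v; simp [hBdef]
  have huB : u ∈ B := (hmem u).mpr (Reachable.refl _)
  have hBA : ∀ v ∈ B, v ∈ A := by
    intro v hv
    rw [hmem, reachable_iff_reflTransGen] at hv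
    rcases hv.cases_tail with h | ⟨c, -, h⟩
    · exact h ▸ hu
    · have := t.supp _ _ h.1.symm
      rw [mem_insert] at this
      exact this.resolve_left h.2.2
  have hrB : r ∉ B := fun h => hr (hBA r h)
  have step : ∀ a b, a ∈ B → T.Adj a b → b ≠ r → b ∈ B := by
    intro a b ha hab hb
    have har : a ≠ r := fun h => hrB (h ▸ ha)
    rw [hmem] at ha ⊢
    exact ha.trans (Adj.reachable ⟨hab, har, hb⟩)
  have hex : ∀ x, T.Reachable u x → x ∈ B ∨ ∃ ρ ∈ B, T.Adj r ρ := by
    intro x hx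
    rw [reachable_iff_reflTransGen] at hx
    induction hx with
    | refl => exact Or.inl huB
    | @tail b c _ hbc ih =>
      rcases ih with h | h
      · by_cases hc : c = r
        · exact Or.inr ⟨b, h, hc ▸ hbc.symm⟩
        · exact Or.inl (step b c h hbc hc)
      · exact Or.inr h
  obtain ⟨ρ, hρ, hadj⟩ :=
    (hex r (t.conn u (mem_insert_of_mem hu) r (mem_insert_self _ _))).resolve_left hrB
  have huniq : ∀ x ∈ B, T.Adj r x → x = ρ := by
    intro x hx hrx
    by_contra hne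
    have hb := isBridge_iff.mp (isAcyclic_iff_forall_adj_isBridge.mp t.acyc hadj)
    apply hb
    have e1 : (T.deleteEdges {s(r, ρ)}).Adj r x := by
      rw [deleteEdges_adj]
      refine ⟨hrx, ?_⟩
      simp only [Set.mem_singleton_iff, Sym2.eq_iff, true_and, not_or, not_and]
      exact ⟨hne, fun h => absurd h hadj.ne⟩
    have e2 : (restr T (· ≠ r)).Reachable x ρ := ((hmem x).mp hx).symm.trans ((hmem ρ).mp hρ)
    refine e1.reachable.trans (e2.mono ?_)
    intro a b hab
    rw [deleteEdges_adj]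
    refine ⟨hab.1, ?_⟩
    simp only [Set.mem_singleton_iff, Sym2.eq_iff, not_or, not_and]
    exact ⟨fun h => absurd h hab.2.1, fun _ h => absurd h hab.2.2⟩
  refine ⟨B, ρ, hBA, huB, hρ, hadj, ⟨fun a b h => h.2.1, ?_, t.acyc.anti (restr_le _ _)⟩,
    ⟨?_, ?_, t.acyc.anti (restr_le _ _)⟩, ?_⟩
  · have key : ∀ v, (restr T (· ≠ r)).Reachable u v → (restr T (· ∈ B)).Reachable u v := by
      intro v hv
      rw [reachable_iff_reflTransGen] at hv
      induction hv with
      | refl => exact Reachable.refl _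
      | @tail b c hb hbc ih =>
        have hbB : b ∈ B := (hmem b).mpr ((reachable_iff_reflTransGen _ _).mpr hb)
        exact ih.trans (Adj.reachable ⟨hbc.1, hbB, step b c hbB hbc.1 hbc.2.2⟩)
    intro a ha b hb
    exact (key a ((hmem a).mp ha)).symm.trans (key b ((hmem b).mp hb))
  · intro a b hab
    have := t.supp _ _ hab.1
    rw [mem_insert] at this
    rcases this with h | h
    · exact h ▸ mem_insert_self _ _
    · exact mem_insert_of_mem (mem_sdiff.mpr ⟨h, hab.2.1⟩)
  · have key : ∀ x, T.Reachable r x → x ∈ B ∨ (x ∉ B ∧ (restr T (· ∉ B)).Reachable r x) := by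
      intro x hx
      rw [reachable_iff_reflTransGen] at hx
      induction hx with
      | refl => exact Or.inr ⟨hrB, Reachable.refl _⟩
      | @tail b c _ hbc ih =>
        by_cases hc : c ∈ B
        · exact Or.inl hc
        · refine Or.inr ⟨hc, ?_⟩
          rcases ih with h | h
          · have : c = r := by
              by_contra hcr
              exact hc (step b c h hbc hcr)
            exact this ▸ Reachable.refl _
          · exact h.2.trans (Adj.reachable ⟨hbc, h.1, hc⟩)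
    have key2 : ∀ x ∈ insert r (A \ B), (restr T (· ∉ B)).Reachable r x := by
      intro x hx
      rw [mem_insert, mem_sdiff] at hx
      rcases hx with h | h
      · exact h ▸ Reachable.refl _
      · exact ((key x (t.conn r (mem_insert_self _ _) x (mem_insert_of_mem h.1))).resolve_left
          h.2).2
    intro a ha b hb
    exact (key2 a ha).symm.trans (key2 b hb)
  · ext a b
    constructor
    · intro h
      by_cases ha : a ∈ B <;> by_cases hb : b ∈ B
      · exact Or.inl (Or.inl ⟨h, ha, hb⟩)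
      · have hbr : b = r := by
          by_contra hbr
          exact hb (step a b ha h hbr)
        have : a = ρ := huniq a ha (hbr ▸ h.symm)
        refine Or.inr ?_
        rw [edge_adj]
        exact ⟨Or.inr ⟨this, hbr⟩, h.ne⟩
      · have har : a = r := by
          by_contra har
          exact ha (step b a hb h.symm har)
        have : b = ρ := huniq b hb (har ▸ h)
        refine Or.inr ?_
        rw [edge_adj]
        exact ⟨Or.inl ⟨har, this⟩, h.ne⟩
      · exact Or.inl (Or.inr ⟨h, ha, hb⟩)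
    · rintro ((h | h) | h)
      · exact h.1
      · exact h.1
      · rw [edge_adj] at h
        rcases h.1 with ⟨h1, h2⟩ | ⟨h1, h2⟩
        · exact h1 ▸ h2 ▸ hadj
        · exact h1 ▸ h2 ▸ hadj.symm

open Classical in
/-- number of neighbours of `r` in `B` -/
noncomputable def dg (G : SimpleGraph V) (r : V) (B : Finset V) : ℕ := (B.filter (G.Adj r)).card

theorem tau_rec (G : SimpleGraph V) {A : Finset V} {r u : V} (hr : r ∉ A) (hu : u ∈ A) :
    tau G (insert r A) = ∑ B ∈ A.powerset.filter (u ∈ ·),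
      dg G r B * tau G B * tau G (insert r (A \ B)) := by
  classical
  have hcard : (∑ B ∈ A.powerset.filter (u ∈ ·), dg G r B * tau G B * tau G (insert r (A \ B))) =
      ((A.powerset.filter (u ∈ ·)).sigma (fun B => (B.filter (G.Adj r)) ×ˢ
        (trees G B ×ˢ trees G (insert r (A \ B))))).card := by
    rw [card_sigma]
    refine sum_congr rfl fun B _ => ?_
    rw [card_product, card_product, dg, tau, tau, mul_assoc]
  rw [hcard, tau]
  symm
  refine card_bij (fun x _ => x.2.2.1 ⊔ x.2.2.2 ⊔ edge r x.2.1) ?_ ?_ ?_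
  · rintro ⟨B, ρ, T1, T2⟩ hx
    simp only [mem_sigma, mem_filter, mem_powerset, mem_product, mem_trees] at hx
    obtain ⟨⟨hB, huB⟩, ⟨hρ, hadj⟩, ⟨l1, t1⟩, ⟨l2, t2⟩⟩ := hx
    rw [mem_trees]
    refine ⟨sup_le (sup_le l1 l2) ?_, glue_tree hr hB hρ t1 t2⟩
    intro a b h
    rw [edge_adj] at h
    rcases h.1 with ⟨h1, h2⟩ | ⟨h1, h2⟩
    · exact h1 ▸ h2 ▸ hadj
    · exact h1 ▸ h2 ▸ hadj.symm
  · rintro ⟨B, ρ, T1, T2⟩ hx ⟨B', ρ', T1', T2'⟩ hx' heq
    simp only [mem_sigma, mem_filter, mem_powerset, mem_product, mem_trees] at hx hx' heq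
    obtain ⟨⟨hB, huB⟩, ⟨hρ, hadj⟩, ⟨l1, t1⟩, ⟨l2, t2⟩⟩ := hx
    obtain ⟨⟨hB', huB'⟩, ⟨hρ', hadj'⟩, ⟨l1', t1'⟩, ⟨l2', t2'⟩⟩ := hx'
    obtain ⟨p1, p2, p3, p4⟩ := glue_props hr hB hρ huB t1 t2
    obtain ⟨q1, q2, q3, q4⟩ := glue_props hr hB' hρ' huB' t1' t2'
    rw [← heq] at q1 q2 q3 q4
    have hBB : B = B' := by
      ext v
      rw [p1, q1]
    subst hBB
    have hρρ : ρ = ρ' := (q2 ρ hρ).mp ((p2 ρ hρ).mpr rfl)
    subst hρρ
    have e1 : T1 = T1' := p3.trans q3.symm
    have e2 : T2 = T2' := p4.trans q4.symm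
    subst e1 e2
    rfl
  · intro T hT
    rw [mem_trees] at hT
    obtain ⟨B, ρ, hB, huB, hρ, hadj, t1, t2, hT'⟩ := split_tree hr hu hT.2
    refine ⟨⟨B, ρ, restr T (· ∈ B), restr T (· ∉ B)⟩, ?_, hT'.symm⟩
    simp only [mem_sigma, mem_filter, mem_powerset, mem_product, mem_trees]
    exact ⟨⟨hB, huB⟩, ⟨hρ, hT.1 hadj⟩, ⟨(restr_le _ _).trans hT.1, t1⟩,
      ⟨(restr_le _ _).trans hT.1, t2⟩⟩

theorem tau_rec' (G : SimpleGraph V) {A : Finset V} {r : V} (hr : r ∉ A) :
    A.card * tau G (insert r A) = ∑ B ∈ A.powerset,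
      B.card * (dg G r B * tau G B) * tau G (insert r (A \ B)) := by
  have h1 : A.card * tau G (insert r A) = ∑ u ∈ A, ∑ B ∈ A.powerset.filter (u ∈ ·),
      dg G r B * tau G B * tau G (insert r (A \ B)) := by
    rw [← smul_eq_mul, ← sum_const]
    exact sum_congr rfl fun u hu => tau_rec G hr hu
  rw [h1, sum_comm' (t' := A.powerset) (s' := fun B => B)]
  · refine sum_congr rfl fun B _ => ?_
    rw [sum_const, smul_eq_mul]
    ring
  · intro u B
    simp only [mem_filter, mem_powerset]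
    constructor
    · rintro ⟨-, h1, h2⟩
      exact ⟨h2, h1⟩
    · rintro ⟨h2, h1⟩
      exact ⟨h1 h2, h1, h2⟩

theorem tau_singleton (G : SimpleGraph V) (r : V) : tau G {r} = 1 := by
  rw [tau, card_eq_one]
  refine ⟨⊥, ?_⟩
  ext T
  rw [mem_trees, mem_singleton]
  constructor
  · rintro ⟨-, t⟩
    ext a b
    simp only [bot_adj, iff_false]
    intro h
    have h1 := mem_singleton.mp (t.supp _ _ h)
    have h2 := mem_singleton.mp (t.supp _ _ h.symm)
    exact h.ne (h1.trans h2.symm)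
  · rintro rfl
    refine ⟨bot_le, fun a b h => h.elim, ?_, isAcyclic_bot⟩
    intro a ha b hb
    rw [mem_singleton.mp ha, mem_singleton.mp hb]

end Pool.Agent.H247Z.MST
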